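import Pool.Agent.W172.MK.Stm

/-!
MP_65c995_pr, project MK.  The Fourier transform of one step of the recursion.
-/

set_option autoImplicit false

namespace Pool.Agent.W366.MK

open Pool.Agent.W172.MK

theorem hlam (hEE : P_EE) : P_HLAM := by
  intro n hn D u a
  obtain ⟨_, hsymm, _, hz, hsum⟩ := hEE n
  have hq : (2 : ℝ) ≤ qq n := by
    have h : (2 : ℝ) ^ 1 ≤ 2 ^ n := pow_le_pow_right₀ (by norm_num) hn
    rw [pow_one] at h
    exact h
  have hq0 : qq n ≠ 0 := by linarith
  have hq1 : qq n - 1 ≠ 0 := by linarith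
  have h0 : ∀ m : ℝ, ∑ b, (qq n / (qq n - 1) * (m - D b * u b / qq n)) * ee a b =
      qq n / (qq n - 1) * (m * (∑ b, ee a b) - (∑ b, D b * u b * ee a b) / qq n) := by
    intro m
    rw [Finset.mul_sum, Finset.sum_div, ← Finset.sum_sub_distrib, Finset.mul_sum]
    refine Finset.sum_congr rfl fun b _ => ?_
    ring
  have h1 : ∑ b, Lam u D b * ee a b = qq n / (qq n - 1) *
      ((∑ b', D b' * u b') / qq n * (∑ b, ee a b) - (∑ b, D b * u b * ee a b) / qq n) :=
    h0 _
  have h2 : ∑ b, ee a b = if a = 0 then qq n else 0 := by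
    rw [← hsum a]
    exact Finset.sum_congr rfl fun b _ => hsymm a b
  rw [hat, h1, h2]
  by_cases ha : a = 0
  · rw [if_pos ha, if_pos ha, hat, ha]
    have h3 : ∑ b, D b * u b * ee (0 : V n) b = ∑ b, D b * u b :=
      Finset.sum_congr rfl fun b _ => by rw [hz, mul_one]
    rw [h3]
    field_simp
  · rw [if_neg ha, if_neg ha, hat]
    field_simp
    ring

end Pool.Agent.W366.MK
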